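import Pool.Agent.K1H14.SD.Stm4
import Pool.Agent.K1H59.SD.TR
import Pool.Agent.K1H25.SD.Vec

/-!
# Project SD: existence of the partner (`S_TT`)
-/

set_option autoImplicit false

namespace Pool.Agent.K1H8.SD

open Pool.Agent.K1H14.SD

open scoped symmDiff

universe u

variable {A : Type u} [Ring A] [Algebra ℂ A] {d : ℕ} {M : Finset (Fin d) → A} {st : A →ₗ[ℂ] A}

/-- brackets of elements of level `d - 1` have level `2` -/
theorem lev_brk' (hE : EvenCl M st) (x p : A) (hx : x ∈ Lev M (d - 1))
    (hp : p ∈ Lev M (d - 1)) : x * p - p * x ∈ Lev M 2 := by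
  have hd := hE.odd
  have hde : Even (d - 1) := by
    obtain ⟨t, ht⟩ := hd
    exact ⟨t, by omega⟩
  unfold Lev at hx hp
  induction hx using Submodule.span_induction with
  | zero => rw [zero_mul, mul_zero, sub_zero]; exact Submodule.zero_mem _
  | add a b _ _ ha hb =>
    have : (a + b) * p - p * (a + b) = (a * p - p * a) + (b * p - p * b) := by
      rw [add_mul, mul_add]; abel
    rw [this]
    exact Submodule.add_mem _ ha hb
  | smul c a _ ha =>
    have : (c • a) * p - p * (c • a) = c • (a * p - p * a) := by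
      rw [smul_mul_assoc, mul_smul_comm, smul_sub]
    rw [this]
    exact Submodule.smul_mem _ _ ha
  | mem a ha =>
    obtain ⟨K, hK, rfl⟩ := ha
    have hKe : Even K.card := by rw [hK]; exact hde
    induction hp using Submodule.span_induction with
    | zero => rw [zero_mul, mul_zero, sub_zero]; exact Submodule.zero_mem _
    | add a b _ _ ha hb =>
      have : M K * (a + b) - (a + b) * M K = (M K * a - a * M K) + (M K * b - b * M K) := by
        rw [add_mul, mul_add]; abel
      rw [this]
      exact Submodule.add_mem _ ha hb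
    | smul c a _ ha =>
      have : M K * (c • a) - (c • a) * M K = c • (M K * a - a * M K) := by
        rw [smul_mul_assoc, mul_smul_comm, smul_sub]
      rw [this]
      exact Submodule.smul_mem _ _ ha
    | mem b hb =>
      obtain ⟨L, hL, rfl⟩ := hb
      have hLe : Even L.card := by rw [hL]; exact hde
      by_cases hKL : K = L
      · subst hKL
        rw [sub_self]
        exact Submodule.zero_mem _
      · have hcm := hE.comm K L hKe hLe
        have h1 := Finset.card_union_add_card_inter K L
        have h2 : (K ∪ L).card ≤ d := by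
          have := Finset.card_le_univ (K ∪ L)
          rwa [Fintype.card_fin] at this
        have h3 : (K ∩ L).card < K.card := by
          refine Finset.card_lt_card ⟨Finset.inter_subset_left, fun h4 => hKL ?_⟩
          have h5 : K ⊆ L := fun y hy => (Finset.mem_inter.1 (h4 hy)).2
          exact Finset.eq_of_subset_of_card_le h5 (by omega)
        have hpar : Odd (K ∩ L).card := by
          obtain ⟨t, ht⟩ := hd
          exact ⟨t - 1, by omega⟩
        rw [hpar.neg_one_pow, neg_smul, one_smul] at hcm
        obtain ⟨ε, -, h3'⟩ := hE.mul K L hKe hLe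
        have h4 : M L * M K = - (M K * M L) := by rw [hcm, neg_neg]
        rw [h4, sub_neg_eq_add, h3', ← add_smul]
        refine Submodule.smul_mem _ _ (Submodule.subset_span ⟨K ∆ L, ?_, rfl⟩)
        have h7 := Pool.Agent.K1H25.SD.card_sd K L
        omega

/-- the elements of level two modulo four are skew -/
theorem lev_skew (hE : EvenCl M st) {k : ℕ} (hk : k % 4 = 2) (x : A) (hx : x ∈ Lev M k) :
    st x = - x := by
  unfold Lev at hx
  induction hx using Submodule.span_induction with
  | zero => rw [map_zero, neg_zero]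
  | add a b _ _ ha hb => rw [map_add, ha, hb, neg_add]
  | smul c a _ ha => rw [map_smul, ha, smul_neg]
  | mem a ha =>
    obtain ⟨K, hK, rfl⟩ := ha
    have hKe : Even K.card := by rw [hK]; exact ⟨k / 2, by omega⟩
    have hod : Odd (K.card / 2) := by rw [hK]; exact ⟨k / 4, by omega⟩
    rw [hE.st_M K hKe, hod.neg_one_pow, neg_smul, one_smul]

/-- an element commuting with level `2` commutes with all the monomials -/
theorem comm_all (hE : EvenCl M st) (r : A)
    (hr : ∀ K : Finset (Fin d), K.card = 2 → r * M K = M K * r) (n : ℕ) :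
    ∀ K : Finset (Fin d), K.card = 2 * n → r * M K = M K * r := by
  induction n with
  | zero =>
    intro K hK
    have : K = ∅ := Finset.card_eq_zero.1 (by omega)
    rw [this, hE.one, mul_one, one_mul]
  | succ n ih =>
    intro K hK
    obtain ⟨L, hLK, hL⟩ := Finset.exists_subset_card_eq (s := K) (n := 2) (by omega)
    have h1 : (K \ L).card = 2 * n := by
      rw [Finset.card_sdiff_of_subset hLK]; omega
    obtain ⟨ε, hε, h2⟩ := hE.mul L (K \ L) (by rw [hL]; exact even_two)
      (by rw [h1]; exact even_two_mul n)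
    have h3 : L ∆ (K \ L) = K := by
      ext x
      rw [Finset.mem_symmDiff, Finset.mem_sdiff]
      constructor
      · rintro (⟨hx, -⟩ | ⟨⟨hx, -⟩, -⟩)
        · exact hLK hx
        · exact hx
      · intro hx
        by_cases hxL : x ∈ L
        · exact Or.inl ⟨hxL, fun h => h.2 hxL⟩
        · exact Or.inr ⟨⟨hx, hxL⟩, hxL⟩
    rw [h3] at h2
    have hε0 : ε ≠ 0 := by rcases hε with rfl | rfl <;> norm_num
    have h4 : M K = ε⁻¹ • (M L * M (K \ L)) := by
      rw [h2, smul_smul, inv_mul_cancel₀ hε0, one_smul]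
    rw [h4, mul_smul_comm, smul_mul_assoc, ← mul_assoc, hr L hL, mul_assoc, ih _ h1, mul_assoc]

theorem exists_iota (hE : EvenCl M st) (hd5 : 5 ≤ d) : ∃ ι : A →ₗ[ℂ] A,
    (∀ z ∈ Lev M 2, ι z = z) ∧ ∀ n ∈ Lev M (d - 1), ι n = - n := by
  obtain ⟨-, tr, htr, -⟩ := Pool.Agent.K1H59.SD.t_TR M st hE
  have hd := hE.odd
  have hde : Even (d - 1) := by
    obtain ⟨t, ht⟩ := hd
    exact ⟨t, by omega⟩
  have hpair : ∀ K L : Finset (Fin d), Even K.card → Even L.card →
      tr (st (M K) * M L) = if K = L then 1 else 0 := by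
    intro K L hK hL
    by_cases hKL : K = L
    · subst hKL
      rw [if_pos rfl, hE.st_inv K hK, ← hE.one, htr ∅ (by simp), if_pos rfl]
    · rw [if_neg hKL, hE.st_M K hK, smul_mul_assoc, map_smul]
      obtain ⟨ε, -, h2⟩ := hE.mul K L hK hL
      have h3 : Even (K ∆ L).card := by
        have := Pool.Agent.K1H25.SD.card_sd K L
        obtain ⟨a, ha⟩ := hK
        obtain ⟨b, hb⟩ := hL
        exact ⟨a + b - (K ∩ L).card, by omega⟩
      have h4 : K ∆ L ≠ ∅ := fun h => hKL (symmDiff_eq_bot.1 h)
      rw [h2, map_smul, htr _ h3, if_neg h4, smul_zero, smul_zero]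
  let π : A →ₗ[ℂ] A := ∑ K ∈ Finset.univ.filter (fun K : Finset (Fin d) => K.card = d - 1),
    (tr.comp (LinearMap.mulLeft ℂ (st (M K)))).smulRight (M K)
  have hπ : ∀ x, π x = ∑ K ∈ Finset.univ.filter (fun K : Finset (Fin d) => K.card = d - 1),
      tr (st (M K) * x) • M K := by
    intro x
    simp [π, LinearMap.sum_apply]
  have h2 : ∀ z ∈ Lev M 2, π z = 0 := by
    intro z hz
    unfold Lev at hz
    induction hz using Submodule.span_induction with
    | zero => rw [map_zero]
    | add a b _ _ ha hb => rw [map_add, ha, hb, add_zero]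
    | smul c a _ ha => rw [map_smul, ha, smul_zero]
    | mem a ha =>
      obtain ⟨K, hK, rfl⟩ := ha
      rw [hπ]
      refine Finset.sum_eq_zero fun L hL => ?_
      have hLc : L.card = d - 1 := (Finset.mem_filter.1 hL).2
      rw [hpair L K (by rw [hLc]; exact hde) (by rw [hK]; exact even_two), if_neg, zero_smul]
      rintro rfl
      omega
  have h3 : ∀ n ∈ Lev M (d - 1), π n = n := by
    intro n hn
    unfold Lev at hn
    induction hn using Submodule.span_induction with
    | zero => rw [map_zero]
    | add a b _ _ ha hb => rw [map_add, ha, hb]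
    | smul c a _ ha => rw [map_smul, ha]
    | mem a ha =>
      obtain ⟨K, hK, rfl⟩ := ha
      rw [hπ, Finset.sum_eq_single K]
      · rw [hpair K K (by rw [hK]; exact hde) (by rw [hK]; exact hde), if_pos rfl, one_smul]
      · intro L hL hLK
        have hLc : L.card = d - 1 := (Finset.mem_filter.1 hL).2
        rw [hpair L K (by rw [hLc]; exact hde) (by rw [hK]; exact hde), if_neg hLK, zero_smul]
      · intro h
        exfalso
        apply h
        rw [Finset.mem_filter]
        exact ⟨Finset.mem_univ K, hK⟩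
  refine ⟨LinearMap.id - (2 : ℂ) • π, fun z hz => ?_, fun n hn => ?_⟩
  · rw [LinearMap.sub_apply, LinearMap.smul_apply, h2 z hz, smul_zero, sub_zero,
      LinearMap.id_apply]
  · rw [LinearMap.sub_apply, LinearMap.smul_apply, h3 n hn, LinearMap.id_apply, two_smul]
    abel

theorem t_TT (h : S_IOT.{u}) (h' : S_CLU.{u}) : S_TT.{u} := by
  intro A _ _ d M st s hE hd4 hd5 hd7 hss hss' hG hG'
  have hd := hE.odd
  have hde : Even (d - 1) := by
    obtain ⟨t, ht⟩ := hd
    exact ⟨t, by omega⟩
  obtain ⟨ι, hι2, hιd⟩ := exists_iota hE hd5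
  have hιG : ∀ z ∈ Lev M 2, ∀ n ∈ Lev M (d - 1), ι (z + n) = z - n := by
    intro z hz n hn
    rw [map_add, hι2 z hz, hιd n hn, sub_eq_add_neg]
  -- iota is a Lie homomorphism
  have hLie : ∀ x ∈ Lev M 2 ⊔ Lev M (d - 1), ∀ y ∈ Lev M 2 ⊔ Lev M (d - 1),
      ι (x * y - y * x) = ι x * ι y - ι y * ι x := by
    intro x hx y hy
    obtain ⟨z, hz, n, hn, rfl⟩ := Submodule.mem_sup.1 hx
    obtain ⟨z', hz', n', hn', rfl⟩ := Submodule.mem_sup.1 hy
    have e1 : (z + n) * (z' + n') - (z' + n') * (z + n) =
        ((z * z' - z' * z) + (n * n' - n' * n)) + ((z * n' - n' * z) - (z' * n - n * z')) := by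
      noncomm_ring
    have e2 : (z - n) * (z' - n') - (z' - n') * (z - n) =
        ((z * z' - z' * z) + (n * n' - n' * n)) - ((z * n' - n' * z) - (z' * n - n * z')) := by
      noncomm_ring
    rw [hιG z hz n hn, hιG z' hz' n' hn', e1, e2]
    refine hιG _ ?_ _ ?_
    · exact Submodule.add_mem _ (Pool.Agent.K1H25.SD.lev_brk hE even_two z z' hz hz')
        (lev_brk' hE n n' hn hn')
    · exact Submodule.sub_mem _ (Pool.Agent.K1H25.SD.lev_brk hE hde z n' hz hn')
        (Pool.Agent.K1H25.SD.lev_brk hE hde z' n hz' hn)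
  -- iota and squares
  have hsq : ∀ x ∈ Lev M 2 ⊔ Lev M (d - 1), ∀ μ : ℂ, x * x = μ • (1 : A) →
      ι x * ι x = μ • (1 : A) := by
    intro x hx μ hxx
    obtain ⟨z, hz, n, hn, rfl⟩ := Submodule.mem_sup.1 hx
    rw [hιG z hz n hn]
    exact h M st z n μ hE hd5 hd7 hz hn hxx
  have hskew : ∀ x ∈ Lev M 2 ⊔ Lev M (d - 1), st (ι x) = - ι x := by
    intro x hx
    obtain ⟨z, hz, n, hn, rfl⟩ := Submodule.mem_sup.1 hx
    rw [hιG z hz n hn, map_sub, lev_skew hE (by norm_num) z hz,
      lev_skew hE (by omega) n hn]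
    abel
  -- the vectors
  let nn : Fin d → A := fun i => M (Finset.univ.erase i)
  have hcard : ∀ i : Fin d, (Finset.univ.erase i : Finset (Fin d)).card = d - 1 := by
    intro i
    rw [Finset.card_erase_of_mem (Finset.mem_univ i), Finset.card_univ, Fintype.card_fin]
  have hnnL : ∀ i, nn i ∈ Lev M (d - 1) := fun i => Submodule.subset_span ⟨_, hcard i, rfl⟩
  have hnnG : ∀ i, nn i ∈ Lev M 2 ⊔ Lev M (d - 1) := fun i =>
    Submodule.mem_sup_right (hnnL i)
  have hce : ∀ i : Fin d, Even (Finset.univ.erase i : Finset (Fin d)).card := by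
    intro i; rw [hcard i]; exact hde
  have hnsq : ∀ i, nn i * nn i = (-1 : ℂ) • (1 : A) := by
    intro i
    have h1 := hE.st_inv (Finset.univ.erase i) (hce i)
    have h2 : st (nn i) = - nn i := lev_skew hE (by omega) _ (hnnL i)
    have h3 : st (nn i) * nn i = 1 := h1
    rw [h2, neg_mul] at h3
    rw [neg_smul, one_smul, ← h3, neg_neg]
  have hsd : ∀ i j : Fin d, (Finset.univ.erase i : Finset (Fin d)) ∆ (Finset.univ.erase j) =
      if i = j then ∅ else {i, j} := by
    intro i j
    by_cases hij : i = j
    · rw [if_pos hij, hij, symmDiff_self]; rfl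
    · rw [if_neg hij]
      ext x
      rw [Finset.mem_symmDiff]
      simp only [Finset.mem_erase, Finset.mem_univ, and_true, Finset.mem_insert,
        Finset.mem_singleton, not_not]
      constructor
      · rintro (⟨-, h2⟩ | ⟨-, h2⟩)
        · exact Or.inr h2
        · exact Or.inl h2
      · rintro (h2 | h2)
        · exact Or.inr ⟨fun h3 => hij (h2.symm.trans h3), h2⟩
        · exact Or.inl ⟨fun h3 => hij (h3.symm.trans h2), h2⟩
  have hanti : ∀ i j, i ≠ j → nn i * nn j = - (nn j * nn i) := by
    intro i j hij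
    have h1 := hE.comm _ _ (hce i) (hce j)
    have h2 := Pool.Agent.K1H25.SD.card_sd (Finset.univ.erase i) (Finset.univ.erase j)
    rw [hsd i j, if_neg hij, Finset.card_pair hij, hcard, hcard] at h2
    have h3 : Odd ((Finset.univ.erase i : Finset (Fin d)) ∩ (Finset.univ.erase j)).card := by
      exact ⟨(d - 3) / 2, by omega⟩
    rw [h3.neg_one_pow, neg_smul, one_smul] at h1
    exact h1
  -- conjugation by `s`
  have hcm : ∀ x y : A, (s * x * st s) * (s * y * st s) = s * (x * y) * st s := by
    intro x y
    calc (s * x * st s) * (s * y * st s) = s * x * (st s * s) * y * st s := by noncomm_ring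
      _ = s * (x * y) * st s := by rw [hss]; noncomm_ring
  have hcsm : ∀ (c : ℂ), s * (c • (1 : A)) * st s = c • (1 : A) := by
    intro c
    rw [mul_smul_comm, mul_one, smul_mul_assoc, hss']
  let m : Fin d → A := fun i => ι (s * nn i * st s)
  have hνG : ∀ i, s * nn i * st s ∈ Lev M 2 ⊔ Lev M (d - 1) := fun i => hG _ (hnnG i)
  have hm_sq : ∀ i, m i * m i = (-1 : ℂ) • (1 : A) := by
    intro i
    refine hsq _ (hνG i) _ ?_
    rw [hcm, hnsq, hcsm]
  have hm_anti : ∀ i j, m i * m j + m j * m i = if i = j then -2 else 0 := by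
    intro i j
    by_cases hij : i = j
    · subst hij
      rw [if_pos rfl, hm_sq, neg_smul, one_smul]
      norm_num
    · rw [if_neg hij]
      have h1 : (nn i + nn j) * (nn i + nn j) = (-2 : ℂ) • (1 : A) := by
        rw [add_mul, mul_add, mul_add, hnsq, hnsq, hanti i j hij]
        rw [neg_smul, neg_smul, one_smul, two_smul]
        abel
      have h2 : (m i + m j) * (m i + m j) = (-2 : ℂ) • (1 : A) := by
        have e : m i + m j = ι (s * (nn i + nn j) * st s) := by
          show ι _ + ι _ = _
          rw [← map_add, mul_add, add_mul]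
        rw [e]
        refine hsq _ (hG _ (Submodule.add_mem _ (hnnG i) (hnnG j))) _ ?_
        rw [hcm, h1, hcsm]
      have h3 : (m i + m j) * (m i + m j) = m i * m i + m j * m j + (m i * m j + m j * m i) := by
        noncomm_ring
      rw [h3, hm_sq, hm_sq] at h2
      have h4 : m i * m j + m j * m i = (-2 : ℂ) • (1 : A) - ((-1 : ℂ) • (1 : A) +
          (-1 : ℂ) • (1 : A)) := by
        rw [← h2]; abel
      rw [h4, ← add_smul, ← sub_smul]
      norm_num
  obtain ⟨t, σ, hσ, htt, htt', hmt⟩ := h' M st m hE hd4 (fun i => hskew _ (hνG i)) hm_anti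
  have hσ2 : σ * σ = 1 := by rcases hσ with rfl | rfl <;> norm_num
  have hmt' : ∀ i, m i = σ • (t * nn i * st t) := by
    intro i
    calc m i = m i * t * st t := by rw [mul_assoc, htt', mul_one]
      _ = σ • (t * nn i * st t) := by rw [hmt i, smul_mul_assoc]
  have htm : ∀ x y : A, (t * x * st t) * (t * y * st t) = t * (x * y) * st t := by
    intro x y
    calc (t * x * st t) * (t * y * st t) = t * x * (st t * t) * y * st t := by noncomm_ring
      _ = t * (x * y) * st t := by rw [htt]; noncomm_ring
  -- level d - 1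
  have hLd : ∀ n ∈ Lev M (d - 1), ι (s * n * st s) = σ • (t * n * st t) := by
    intro n hn
    unfold Lev at hn
    induction hn using Submodule.span_induction with
    | zero => simp
    | add a b _ _ ha hb =>
      rw [mul_add, add_mul, map_add, ha, hb, mul_add, add_mul, smul_add]
    | smul c a _ ha =>
      rw [mul_smul_comm, smul_mul_assoc, map_smul, ha, mul_smul_comm, smul_mul_assoc, smul_comm]
    | mem a ha =>
      obtain ⟨K, hK, rfl⟩ := ha
      have h1 : Kᶜ.card = 1 := by
        rw [Finset.card_compl, Fintype.card_fin, hK]; omega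
      obtain ⟨i, hi⟩ := Finset.card_eq_one.1 h1
      have h2 : K = Finset.univ.erase i := by
        rw [← compl_compl K, hi]
        ext x
        simp
      rw [h2]
      exact hmt' i
  -- level 2
  have hL2 : ∀ z ∈ Lev M 2, ι (s * z * st s) = t * z * st t := by
    intro z hz
    unfold Lev at hz
    induction hz using Submodule.span_induction with
    | zero => simp
    | add a b _ _ ha hb =>
      rw [mul_add, add_mul, map_add, ha, hb, mul_add, add_mul]
    | smul c a _ ha =>
      rw [mul_smul_comm, smul_mul_assoc, map_smul, ha, mul_smul_comm, smul_mul_assoc]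
    | mem a ha =>
      obtain ⟨K, hK, rfl⟩ := ha
      obtain ⟨i, j, hij, rfl⟩ := Finset.card_eq_two.1 hK
      obtain ⟨ε, hε, h1⟩ := hE.mul _ _ (hce i) (hce j)
      rw [hsd i j, if_neg hij] at h1
      have h1' : nn i * nn j = ε • M {i, j} := h1
      have h2 : nn i * nn j - nn j * nn i = (2 * ε) • M {i, j} := by
        have h3 : nn j * nn i = - (nn i * nn j) := by rw [hanti i j hij, neg_neg]
        rw [h3, sub_neg_eq_add, h1', ← add_smul, two_mul]
      have hε0 : (2 * ε) ≠ 0 := by rcases hε with rfl | rfl <;> norm_num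
      have h4 : M {i, j} = (2 * ε)⁻¹ • (nn i * nn j - nn j * nn i) := by
        rw [h2, smul_smul, inv_mul_cancel₀ hε0, one_smul]
      have h5 : s * (nn i * nn j - nn j * nn i) * st s =
          (s * nn i * st s) * (s * nn j * st s) - (s * nn j * st s) * (s * nn i * st s) := by
        rw [hcm, hcm, mul_sub, sub_mul]
      have h6 : ι (s * (nn i * nn j - nn j * nn i) * st s) =
          t * (nn i * nn j - nn j * nn i) * st t := by
        rw [h5, hLie _ (hνG i) _ (hνG j)]
        show m i * m j - m j * m i = _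
        rw [hmt' i, hmt' j, smul_mul_smul_comm, smul_mul_smul_comm, hσ2, one_smul, one_smul,
          htm, htm, mul_sub, sub_mul]
      rw [h4, mul_smul_comm, smul_mul_assoc, map_smul, h6, mul_smul_comm, smul_mul_assoc]
  rcases hσ with hσ1 | hσ1
  · -- the wrong sign
    exfalso
    have hall : ∀ x ∈ Lev M 2 ⊔ Lev M (d - 1), ι (s * x * st s) = t * x * st t := by
      intro x hx
      obtain ⟨z, hz, n, hn, rfl⟩ := Submodule.mem_sup.1 hx
      rw [mul_add, add_mul, map_add, hL2 z hz, hLd n hn, hσ1, one_smul, mul_add, add_mul]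
    have hr : ∀ y ∈ Lev M 2 ⊔ Lev M (d - 1), ι y = (t * st s) * y * (s * st t) := by
      intro y hy
      have h1 := hall _ (hG' y hy)
      have h2 : s * (st s * y * s) * st s = y := by
        calc s * (st s * y * s) * st s = (s * st s) * y * (s * st s) := by noncomm_ring
          _ = y := by rw [hss', one_mul, mul_one]
      rw [h2] at h1
      rw [h1]; noncomm_ring
    have hrr : (s * st t) * (t * st s) = 1 := by
      calc (s * st t) * (t * st s) = s * (st t * t) * st s := by noncomm_ring
        _ = 1 := by rw [htt, mul_one, hss']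
    have hrc : ∀ y ∈ Lev M 2 ⊔ Lev M (d - 1), ι y * (t * st s) = (t * st s) * y := by
      intro y hy
      rw [hr y hy, mul_assoc, hrr, mul_one]
    have h2c : ∀ K : Finset (Fin d), K.card = 2 → (t * st s) * M K = M K * (t * st s) := by
      intro K hK
      have hKL : M K ∈ Lev M 2 := Submodule.subset_span ⟨K, hK, rfl⟩
      rw [← hrc _ (Submodule.mem_sup_left hKL), hι2 _ hKL]
    have hd0 : 0 < d := by omega
    let i₀ : Fin d := ⟨0, hd0⟩
    have h3 : (t * st s) * nn i₀ = nn i₀ * (t * st s) :=
      comm_all hE (t * st s) h2c ((d - 1) / 2) (Finset.univ.erase i₀) (by rw [hcard]; omega)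
    have h4 : (t * st s) * nn i₀ = - (nn i₀ * (t * st s)) := by
      rw [← hrc _ (hnnG i₀), hιd _ (hnnL i₀), neg_mul]
    have h5 : nn i₀ * (t * st s) = 0 := by
      have h6 : nn i₀ * (t * st s) = - (nn i₀ * (t * st s)) := h3.symm.trans h4
      have h7 : (2 : ℂ) • (nn i₀ * (t * st s)) = 0 := by
        rw [two_smul]
        nth_rewrite 1 [h6]
        exact neg_add_cancel _
      exact (smul_eq_zero.1 h7).resolve_left two_ne_zero
    have h8 : nn i₀ = 0 := by
      have h9 : nn i₀ * (t * st s) * (s * st t) = nn i₀ := by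
        calc nn i₀ * (t * st s) * (s * st t) = nn i₀ * (t * (st s * s) * st t) := by noncomm_ring
          _ = nn i₀ := by rw [hss, mul_one, htt', mul_one]
      rw [← h9, h5, zero_mul]
    have h10 := hnsq i₀
    rw [h8, mul_zero] at h10
    exact hE.ne (by
      have := (smul_eq_zero.1 h10.symm).resolve_left (by norm_num)
      exact this)
  · refine ⟨t, htt, htt', ?_⟩
    intro z hz n hn z' hz' n' hn' he
    have h1 : ι (s * (z + n) * st s) = z' - n' := by rw [he]; exact hιG z' hz' n' hn'
    have h2 : ι (s * (z + n) * st s) = t * (z - n) * st t := by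
      rw [mul_add, add_mul, map_add, hL2 z hz, hLd n hn, hσ1, neg_smul, one_smul, mul_sub,
        sub_mul, sub_eq_add_neg]
    rw [← h2, h1]

end Pool.Agent.K1H8.SD
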